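import Pool.Agent.W544.KF.Defs2

/-! Part KF-GRA: a grading gives tensor automorphisms. -/

set_option autoImplicit false
set_option linter.unusedSectionVars false

open CategoryTheory MonoidalCategory

namespace Pool.Agent.W686.KF.GRA

open Pool.Agent.W544.KF

universe w v u

section

variable {F : Type w} [Field F] {D : Type u} [Category.{v} D] [MonoidalCategory D]
  [SymmetricCategory D] [Preadditive D] [Linear F D] (Gr : Grading F D)

theorem bij (A B : D) : Function.Bijective (DirectSum.coeLinearMap (Gr.G A B)) := Gr.internal A B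

/-- the decomposition into components -/
noncomputable def dec (A B : D) : (A ⟶ B) ≃ₗ[F] DirectSum ℤ (fun i => Gr.G A B i) :=
  (LinearEquiv.ofBijective (DirectSum.coeLinearMap (Gr.G A B)) (bij Gr A B)).symm

theorem dec_of {A B : D} {j : ℤ} {f : A ⟶ B} (hf : f ∈ Gr.G A B j) :
    dec Gr A B f = DirectSum.lof F ℤ (fun i => Gr.G A B i) j ⟨f, hf⟩ := by
  unfold dec
  rw [LinearEquiv.symm_apply_eq, LinearEquiv.ofBijective_apply, DirectSum.coeLinearMap_lof]

/-- the morphism `f ↦ ∑ l ^ j f_j` -/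
noncomputable def phi (l : F) (A B : D) : (A ⟶ B) →ₗ[F] (A ⟶ B) :=
  (DirectSum.toModule F ℤ (A ⟶ B) (fun j => (l ^ j) • (Gr.G A B j).subtype)) ∘ₗ
    (dec Gr A B).toLinearMap

theorem phi_of (l : F) {A B : D} {j : ℤ} {f : A ⟶ B} (hf : f ∈ Gr.G A B j) :
    phi Gr l A B f = l ^ j • f := by
  unfold phi
  rw [LinearMap.comp_apply, LinearEquiv.coe_coe, dec_of Gr hf, DirectSum.toModule_lof]
  rfl

theorem ind {A B : D} {P : (A ⟶ B) → Prop} (h0 : P 0) (hadd : ∀ f g, P f → P g → P (f + g))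
    (hhom : ∀ j f, f ∈ Gr.G A B j → P f) (f : A ⟶ B) : P f := by
  have h1 := (Gr.internal A B).submodule_iSup_eq_top
  have hf : f ∈ ⨆ i, Gr.G A B i := by rw [h1]; exact Submodule.mem_top
  exact Submodule.iSup_induction _ (motive := P) hf (fun j x hx => hhom j x hx) h0 hadd

theorem phi_comp {l : F} (hl : l ≠ 0) {A B C : D} (f : A ⟶ B) (g : B ⟶ C) :
    phi Gr l A C (f ≫ g) = phi Gr l A B f ≫ phi Gr l B C g := by
  refine ind Gr (P := fun f => phi Gr l A C (f ≫ g) = phi Gr l A B f ≫ phi Gr l B C g) ?_ ?_ ?_ f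
  · simp
  · intro f1 f2 h1 h2
    rw [Preadditive.add_comp, map_add, map_add, Preadditive.add_comp, h1, h2]
  · intro i f hf
    refine ind Gr (P := fun g => phi Gr l A C (f ≫ g) = phi Gr l A B f ≫ phi Gr l B C g) ?_ ?_ ?_ g
    · simp
    · intro g1 g2 h1 h2
      rw [Preadditive.comp_add, map_add, map_add, Preadditive.comp_add, h1, h2]
    · intro j g hg
      rw [phi_of Gr l hf, phi_of Gr l hg, phi_of Gr l (Gr.comp_mem hf hg), Linear.smul_comp,
        Linear.comp_smul, smul_smul, zpow_add₀ hl]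

variable [MonoidalPreadditive D] [MonoidalLinear F D]

theorem smul_tensor_smul {A B A' B' : D} (a b : F) (f : A ⟶ B) (g : A' ⟶ B') :
    (a • f) ⊗ₘ (b • g) = (a * b) • (f ⊗ₘ g) := by
  rw [MonoidalCategory.tensorHom_def, MonoidalCategory.tensorHom_def,
    MonoidalLinear.smul_whiskerRight, MonoidalLinear.whiskerLeft_smul, Linear.smul_comp,
    Linear.comp_smul, smul_smul]

theorem phi_tensor {l : F} (hl : l ≠ 0) {A B A' B' : D} (f : A ⟶ B) (g : A' ⟶ B') :
    phi Gr l (A ⊗ A') (B ⊗ B') (f ⊗ₘ g) = phi Gr l A B f ⊗ₘ phi Gr l A' B' g := by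
  refine ind Gr (P := fun f => phi Gr l (A ⊗ A') (B ⊗ B') (f ⊗ₘ g) =
    phi Gr l A B f ⊗ₘ phi Gr l A' B' g) ?_ ?_ ?_ f
  · simp
  · intro f1 f2 h1 h2
    rw [MonoidalPreadditive.add_tensor, map_add, map_add, MonoidalPreadditive.add_tensor, h1, h2]
  · intro i f hf
    refine ind Gr (P := fun g => phi Gr l (A ⊗ A') (B ⊗ B') (f ⊗ₘ g) =
      phi Gr l A B f ⊗ₘ phi Gr l A' B' g) ?_ ?_ ?_ g
    · simp
    · intro g1 g2 h1 h2
      rw [MonoidalPreadditive.tensor_add, map_add, map_add, MonoidalPreadditive.tensor_add, h1, h2]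
    · intro j g hg
      rw [phi_of Gr l hf, phi_of Gr l hg, phi_of Gr l (Gr.tensor_mem hf hg), smul_tensor_smul,
        zpow_add₀ hl]

theorem phi_zero_deg (l : F) {A B : D} {f : A ⟶ B} (hf : f ∈ Gr.G A B 0) :
    phi Gr l A B f = f := by
  rw [phi_of Gr l hf, zpow_zero, one_smul]

/-- the tensor automorphism -/
noncomputable def TA (l : F) (hl : l ≠ 0) : TAut D where
  map := fun {A B} => (phi Gr l A B).toAddMonoidHom
  map_id A := phi_zero_deg Gr l (Gr.id_mem A)
  map_comp f g := phi_comp Gr hl f g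
  map_tensor f g := phi_tensor Gr hl f g
  map_assoc A B C := phi_zero_deg Gr l (Gr.assoc_mem A B C)
  map_braid A B := phi_zero_deg Gr l (Gr.braid_mem A B)

theorem TA_map (l : F) (hl : l ≠ 0) {A B : D} (f : A ⟶ B) :
    (TA Gr l hl).map f = phi Gr l A B f := rfl

end

/-- the coefficients -/
theorem coeffs (F : Type w) [Field F] [CharZero F] (K : ℕ) :
    ∃ c : Fin (2 * K + 1) → F, ∀ j : ℤ, |j| ≤ K →
      ∑ i, c i * (((i : ℕ) : F) + 1) ^ j = if j = 0 then 1 else 0 := by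
  classical
  obtain ⟨x, hx⟩ : ∃ x : Fin (2 * K + 1) → F, x = fun i : Fin (2 * K + 1) => ((i : ℕ) : F) + 1 :=
    ⟨_, rfl⟩
  have hx0 : ∀ i, x i ≠ 0 := by
    intro i
    rw [hx]
    exact Nat.cast_add_one_ne_zero _
  have hinj : Set.InjOn x (↑(Finset.univ : Finset (Fin (2 * K + 1)))) := by
    intro i _ j _ hij
    rw [hx] at hij
    have h1 : ((i : ℕ) : F) = ((j : ℕ) : F) := by simpa using hij
    exact Fin.ext (Nat.cast_injective h1)
  refine ⟨fun i => (Lagrange.basis Finset.univ x i).coeff K * x i ^ K, fun j hj => ?_⟩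
  obtain ⟨h1, h2⟩ := abs_le.1 hj
  obtain ⟨m, hm⟩ : ∃ m : ℕ, (m : ℤ) = j + K := ⟨(j + K).toNat, Int.toNat_of_nonneg (by linarith)⟩
  have hm2 : m < 2 * K + 1 := by omega
  have h3 := Lagrange.eq_interpolate (s := (Finset.univ : Finset (Fin (2 * K + 1)))) (v := x)
    (f := (Polynomial.X ^ m : Polynomial F)) hinj (by
      rw [Polynomial.degree_X_pow, Finset.card_univ, Fintype.card_fin]
      exact_mod_cast hm2)
  have h4 := congrArg (fun P => Polynomial.coeff P K) h3
  simp only [Lagrange.interpolate_apply, Polynomial.finsetSum_coeff, Polynomial.coeff_C_mul,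
    Polynomial.eval_pow, Polynomial.eval_X, Polynomial.coeff_X_pow] at h4
  have h5 : ∑ i, (Lagrange.basis Finset.univ x i).coeff K * x i ^ K * (((i : ℕ) : F) + 1) ^ j =
      ∑ i, x i ^ m * (Lagrange.basis Finset.univ x i).coeff K := by
    refine Finset.sum_congr rfl fun i _ => ?_
    have e1 : (((i : ℕ) : F) + 1) = x i := by rw [hx]
    rw [e1]
    have e2 : x i ^ m = x i ^ K * x i ^ j := by
      rw [← zpow_natCast (x i) m, hm, zpow_add₀ (hx0 i), zpow_natCast]
      ring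
    rw [e2]
    ring
  rw [h5, ← h4]
  by_cases hj0 : j = 0
  · rw [if_pos hj0, if_pos]
    omega
  · rw [if_neg hj0, if_neg]
    omega

section

variable {F : Type w} [Field F] [CharZero F] {D : Type u} [Category.{v} D] [MonoidalCategory D]
  [SymmetricCategory D] [Preadditive D] [Linear F D] (Gr : Grading F D)

theorem reyn {A B : D} (x : A ⟶ B) : ∃ (n : ℕ) (c : Fin n → F), ∑ i, c i = 1 ∧
    ∑ i, c i • phi Gr (((i : ℕ) : F) + 1) A B x ∈ Gr.G A B 0 := by
  classical
  have h1 := (Gr.internal A B).submodule_iSup_eq_top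
  have hx : x ∈ ⨆ i, Gr.G A B i := by rw [h1]; exact Submodule.mem_top
  rw [Submodule.mem_iSup_iff_exists_finsupp] at hx
  obtain ⟨f, hf, hsum⟩ := hx
  obtain ⟨K, hK⟩ : ∃ K : ℕ, ∀ j ∈ f.support, |j| ≤ K := by
    refine ⟨f.support.sup fun j => j.natAbs, fun j hj => ?_⟩
    have := Finset.le_sup (f := fun j : ℤ => j.natAbs) hj
    rw [Int.abs_eq_natAbs]
    exact_mod_cast this
  obtain ⟨c, hc⟩ := coeffs F K
  refine ⟨2 * K + 1, c, ?_, ?_⟩
  · have := hc 0 (by simp)
    simpa using this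
  · have hx2 : ∀ l : F, phi Gr l A B x = ∑ j ∈ f.support, l ^ j • f j := by
      intro l
      rw [← hsum, Finsupp.sum, map_sum]
      exact Finset.sum_congr rfl fun j _ => phi_of Gr l (hf j)
    have h3 : ∑ i, c i • phi Gr (((i : ℕ) : F) + 1) A B x =
        ∑ j ∈ f.support, (if j = 0 then (1 : F) else 0) • f j := by
      simp_rw [hx2, Finset.smul_sum, smul_smul]
      rw [Finset.sum_comm]
      refine Finset.sum_congr rfl fun j hj => ?_
      rw [← Finset.sum_smul, hc j (hK j hj)]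
    rw [h3]
    refine Submodule.sum_mem _ fun j _ => ?_
    by_cases hj : j = 0
    · subst hj
      rw [if_pos rfl, one_smul]
      exact hf 0
    · rw [if_neg hj, zero_smul]
      exact Submodule.zero_mem _

end

theorem grad : S_grad.{w, v, u} := by
  intro F _ _ D _ _ _ _ _ _ _ Gr
  refine ⟨Set.range fun n : ℕ => TA Gr ((n : F) + 1) (Nat.cast_add_one_ne_zero n), ?_, ?_⟩
  · intro M x
    obtain ⟨n, c, hc, hx⟩ := reyn Gr x
    refine ⟨n, c, fun i => TA Gr (((i : ℕ) : F) + 1) (Nat.cast_add_one_ne_zero _),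
      fun i => ⟨(i : ℕ), rfl⟩, hc, ?_⟩
    rintro _ ⟨m, rfl⟩
    exact phi_zero_deg Gr _ hx
  · intro A B f hf
    obtain ⟨n, c, hc, hx⟩ := reyn Gr f
    have h1 : ∑ i, c i • phi Gr (((i : ℕ) : F) + 1) A B f = f := by
      have h2 : ∀ i : Fin n, phi Gr (((i : ℕ) : F) + 1) A B f = f := fun i =>
        hf (TA Gr (((i : ℕ) : F) + 1) (Nat.cast_add_one_ne_zero _)) ⟨(i : ℕ), rfl⟩
      simp_rw [h2]
      rw [← Finset.sum_smul, hc, one_smul]
    rw [h1] at hx
    exact hx

end Pool.Agent.W686.KF.GRA
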